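import Pool.Agent.Zk92.Kur.NoDiamond
import Pool.Agent.Results.MP_0f79e1_lc.IffDiamondPlus

set_option autoImplicit false

/-!
# MP_0f79e1_lc, Q1: it is consistent with CH that a Kurepa tree exists and no Kurepa tree is strong

The first part says that a combinatorial principle is forced by a notion of forcing `P`, which
exists outright: `P` is the product of the countably closed forcing which adds a Kurepa family and
of a forcing with countable partial functions. See `Pool.Agent.Zk92.Kur.Defs` for the principle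
(`Principle` is the statement about actual objects, `ForcedPrinciple` the same statement in the
forcing language), and `Pool.Agent.Helper669.Forcing` for the forcing language.

The second part is a theorem about actual objects: whenever the principle holds for a well-ordered
set `W` all of whose proper initial segments are countable, then `W` has order type `ω₁`, CH holds,
there is a Kurepa tree, and no Kurepa tree is strong.
-/

namespace Pool.Agent.Results.MP_0f79e1_lc.NoStrongUnderCH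

open Cardinal Order Set Pool.Agent.H57.Ku Pool.Agent.Zk92.Kur

/-- A Kurepa tree: an `ω₁`-tree with at least `ℵ₂` cofinal branches. -/
def Kurepa (T : Type) [PartialOrder T] : Prop :=
  KTree (ℵ₁ : Cardinal.{0}).ord.ToType T ℵ₁ ∧ ℵ_ 2 ≤ #(Br (ℵ₁ : Cardinal.{0}).ord.ToType T)

/-- `T` is strong: some continuous map sends `[T]` onto `2^ω₁`, for the cone topologies. -/
def Strong (T : Type) [PartialOrder T] : Prop :=
  ∃ F : Br (ℵ₁ : Cardinal.{0}).ord.ToType T → (ℵ₁ : Cardinal.{0}).ord.ToType → Bool,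
    @Continuous _ _ (coneBr _ T) (cone2 _) F ∧ F.Surjective

/-- the principle only depends on the order type of `W` -/
theorem transport {W W' : Type} [LinearOrder W] [LinearOrder W'] {N : Type} (φ : W ≃o W')
    (h : Principle W N) : Principle W' N where
  unc f hf := h.unc (fun n => φ.symm (f n)) (φ.symm.surjective.comp hf)
  ch := by
    obtain ⟨w, hw⟩ := h.ch
    exact ⟨fun α => w (φ.symm α), hw.comp φ.symm.surjective⟩
  many g hg := h.many (fun α => g (φ α)) (hg.comp φ.surjective)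
  kurepa := by
    obtain ⟨X, h1, h2⟩ := h.kurepa
    refine ⟨fun i ξ => X i (φ.symm ξ), fun i j hij => ?_, fun δ => ?_⟩
    · obtain ⟨ξ, hξ⟩ := h1 i j hij
      exact ⟨φ ξ, by simpa using hξ⟩
    · obtain ⟨e, he⟩ := h2 (φ.symm δ)
      refine ⟨e, fun i => ?_⟩
      obtain ⟨n, j, h3, h4⟩ := he i
      exact ⟨n, j, h3, fun ξ hξ => h4 _ (φ.symm.strictMono hξ)⟩
  noDiamond A := by
    obtain ⟨X, hX⟩ := h.noDiamond fun δ n ξ => A (φ δ) n (φ ξ)
    refine ⟨fun ξ => X (φ.symm ξ), fun C hC => ?_⟩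
    have hC' : Club fun ξ => C (φ ξ) := by
      refine ⟨fun γ => ?_, fun δ hδ => ?_⟩
      · obtain ⟨ξ, h1, h2⟩ := hC.1 (φ γ)
        exact ⟨φ.symm ξ, φ.lt_symm_apply.2 h1, by simpa using h2⟩
      · obtain ⟨⟨γ, hγ⟩, h1⟩ := hδ
        refine hC.2 (φ δ) ⟨⟨φ γ, φ.strictMono hγ⟩, fun γ' hγ' => ?_⟩
        obtain ⟨ξ, ⟨h2, h3⟩, h4⟩ := h1 (φ.symm γ') (φ.symm_apply_lt.2 hγ')
        exact ⟨φ ξ, ⟨φ.symm_apply_lt.1 h2, φ.strictMono h3⟩, h4⟩
    obtain ⟨δ, h1, h2⟩ := hX _ hC'
    refine ⟨φ δ, h1, fun n => ?_⟩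
    obtain ⟨ξ, h3, h4⟩ := h2 n
    exact ⟨φ ξ, φ.strictMono h3, by simpa using h4⟩

theorem card_W {W : Type} [LinearOrder W] [WellFoundedLT W] (hW : ∀ δ : W, (Iio δ).Countable)
    {N : Type} (h : Principle W N) : #W = ℵ₁ := by
  have hne : Nonempty W := by
    obtain ⟨w, hw⟩ := h.ch
    exact ⟨(hw ∅).choose⟩
  apply le_antisymm
  · refine le_of_not_gt fun hlt => ?_
    have h1 : #{a : W | #(Iio a) < ℵ₁} ≤ ℵ₁ := by
      let f : {a : W | #(Iio a) < ℵ₁} → Iio (ℵ₁ : Cardinal.{0}).ord := fun a =>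
        ⟨Ordinal.typein (α := W) (· < ·) a.1, by
          rw [mem_Iio, Cardinal.lt_ord]
          exact a.2⟩
      have hf : Function.Injective f := by
        intro a b hab
        have : Ordinal.typein (α := W) (· < ·) a.1 = Ordinal.typein (α := W) (· < ·) b.1 :=
          congrArg Subtype.val hab
        exact Subtype.ext (Ordinal.typein_injective _ this)
      have h1 := Cardinal.lift_mk_le_lift_mk_of_injective hf
      rw [Cardinal.mk_Iio_ordinal, Cardinal.card_ord] at h1
      rw [Cardinal.lift_lift] at h1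
      exact Cardinal.lift_le.1 h1
    have h2 : {a : W | #(Iio a) < ℵ₁} = Set.univ := by
      ext a
      simp only [mem_ofPred_eq, mem_univ, iff_true]
      exact ((hW a).le_aleph0).trans_lt aleph0_lt_aleph_one
    rw [h2, mk_univ] at h1
    exact absurd hlt (not_lt.2 h1)
  · rw [← succ_aleph0]
    apply Order.succ_le_of_lt
    by_contra hcon
    rw [not_lt, Cardinal.mk_le_aleph0_iff] at hcon
    obtain ⟨f, hf⟩ := exists_surjective_nat W
    exact h.unc f hf

theorem exists_iso {W : Type} [LinearOrder W] [WellFoundedLT W] (hW : ∀ δ : W, (Iio δ).Countable)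
    (hc : #W = ℵ₁) : Nonempty (W ≃o (ℵ₁ : Cardinal.{0}).ord.ToType) := by
  have h1 : Ordinal.type (α := W) (· < ·) = (ℵ₁ : Cardinal.{0}).ord := by
    apply le_antisymm
    · refine le_of_forall_lt fun o ho => ?_
      obtain ⟨a, rfl⟩ := Ordinal.typein_surj (α := W) (· < ·) ho
      rw [Cardinal.lt_ord]
      exact ((hW a).le_aleph0).trans_lt aleph0_lt_aleph_one
    · rw [← hc, Cardinal.ord_le]
      exact le_rfl
  rw [← Ordinal.type_toType (ℵ₁ : Cardinal.{0}).ord] at h1
  obtain ⟨e⟩ := Ordinal.type_eq.1 h1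
  exact ⟨OrderIso.ofRelIsoLT e⟩

/-- diamond-plus fails -/
theorem not_diamondPlus {N : Type} (h : Principle W1 N) : ¬ DiamondPlus W1 ℵ₁ := by
  rintro ⟨A, hA, hX⟩
  have hen : ∀ α : W1, ∃ f : ℕ → Set W1, A α ⊆ range f := by
    intro α
    have h1 : (A α).Countable := by
      rw [← Cardinal.le_aleph0_iff_set_countable]
      have := (hA α).1
      rwa [← succ_aleph0, Order.lt_succ_iff] at this
    exact countable_iff_exists_subset_range.1 h1
  choose en hen using hen
  obtain ⟨X, hX2⟩ := h.noDiamond fun α n ξ => ξ ∈ en α n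
  obtain ⟨C, hC, hC2⟩ := hX {ξ | X ξ}
  have hC' : Club fun ξ => ξ ∈ C := by
    refine ⟨fun γ => ?_, fun δ hδ => ?_⟩
    · obtain ⟨γ', hγ'⟩ := W_bdd {γ} (countable_singleton _)
      obtain ⟨ξ, h1, h2⟩ := hC.isCofinal γ'
      exact ⟨ξ, (hγ' γ rfl).trans_le h2, h1⟩
    · obtain ⟨⟨γ, hγ⟩, h1⟩ := hδ
      refine hC.dirSupClosed (d := C ∩ Iio δ) inter_subset_left ?_ ?_ ⟨?_, ?_⟩
      · obtain ⟨ξ, h2, h3⟩ := h1 γ hγ
        exact ⟨ξ, h3, h2.2⟩
      · exact fun x hx y hy => (le_total x y).elim (fun h => ⟨y, hy, h, le_rfl⟩)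
          (fun h => ⟨x, hx, le_rfl, h⟩)
      · exact fun x hx => hx.2.le
      · intro b hb
        by_contra hcon
        obtain ⟨ξ, h2, h3⟩ := h1 b (not_le.1 hcon)
        exact absurd (hb ⟨h3, h2.2⟩) (not_le.2 h2.1)
  obtain ⟨δ, h1, h2⟩ := hX2 _ hC'
  obtain ⟨n, hn⟩ := hen δ (hC2 δ h1).1
  obtain ⟨ξ, h3, h4⟩ := h2 n
  apply h4
  show ξ ∈ {ξ | X ξ} ↔ ξ ∈ en δ n
  rw [hn]
  exact ⟨fun h => ⟨h, h3⟩, fun h => h.1⟩

/-- there is a Kurepa tree -/
theorem exists_kurepa {N : Type} (h : Principle W1 N) :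
    ∃ (T : Type) (_ : PartialOrder T), Kurepa T := by
  obtain ⟨X, hX1, hX2⟩ := h.kurepa
  obtain ⟨i0⟩ : Nonempty N := ⟨(hX2 (Classical.arbitrary W1)).choose 0⟩
  refine ⟨Tr X, inferInstance, ⟨fun t => ?_, fun α => ⟨_, nt_lev i0 α⟩, fun α => ?_⟩, ?_⟩
  · obtain ⟨i, α, rfl⟩ := nt_ex t
    exact ⟨α, nt_lev i α⟩
  · obtain ⟨e, he⟩ := hX2 α
    have h1 : Lev W1 (Tr X) α ⊆ range fun n => nt X (e n) α := by
      intro t ht
      obtain ⟨i, rfl⟩ := nt_of ht
      obtain ⟨n, j, rfl, h3⟩ := he i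
      exact ⟨n, (nt_le.2 ⟨le_rfl, fun ξ hξ => propext (h3 ξ hξ).symm⟩).antisymm
        (nt_le.2 ⟨le_rfl, fun ξ hξ => propext (h3 ξ hξ)⟩)⟩
    exact (((countable_range _).mono h1).le_aleph0).trans_lt aleph0_lt_aleph_one
  · have e : ℵ_ 2 = succ (ℵ₁ : Cardinal.{0}) := by
      rw [succ_aleph, one_add_one_eq_two]
    rw [e]
    have h1 : (ℵ₁ : Cardinal.{0}) < #N := by
      by_contra hcon
      rw [not_lt, ← Cardinal.mk_ord_toType ℵ₁] at hcon
      haveI : Nonempty N := ⟨i0⟩
      obtain ⟨g⟩ := (Cardinal.le_def _ _).1 hcon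
      exact h.many (Function.invFun g) (Function.invFun_surjective g.injective)
    refine (succ_le_of_lt h1).trans (Cardinal.mk_le_of_injective (f := brOf (b := X)) ?_)
    intro i j hij
    by_contra hne
    obtain ⟨ξ, hξ⟩ := hX1 i j hne
    obtain ⟨α, hα⟩ := W_bdd {ξ} (countable_singleton _)
    have h2 : nt X i α ∈ (brOf (b := X) j).1 := by
      rw [← hij]
      exact ⟨α, rfl⟩
    obtain ⟨β, hβ⟩ := h2
    have h3 := nt_le.1 hβ.ge
    exact hξ (iff_of_eq (h3.2 ξ (hα ξ rfl)))

/-- (1) There are a notion of forcing `P` (a nonempty preordered set) and a set `N` such that every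
condition forces the principle for `ω₁` and `N`. (2) If the principle holds for a well-ordered set
`W` all of whose proper initial segments are countable, then `W` has cardinality `ℵ₁` (so it has
order type `ω₁`), CH holds, there is a Kurepa tree, and no Kurepa tree is strong. -/
theorem result :
    (∃ (P : Type) (_ : Preorder P) (N : Type), Nonempty P ∧
      ∀ p : P, p ∈ ForcedPrinciple P (ℵ₁ : Cardinal.{0}).ord.ToType N) ∧
    (∀ (W : Type) [LinearOrder W] [WellFoundedLT W], (∀ δ : W, (Iio δ).Countable) →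
      ∀ N : Type, Principle W N →
        #W = ℵ₁ ∧ (𝔠 : Cardinal.{0}) = ℵ₁ ∧ (∃ (T : Type) (_ : PartialOrder T), Kurepa T) ∧
          ∀ (T : Type) [PartialOrder T], Kurepa T → ¬ Strong T) := by
  refine ⟨exists_forcing, fun W _ _ hW N h => ?_⟩
  have hc := card_W hW h
  obtain ⟨φ⟩ := exists_iso hW hc
  have h' := transport φ h
  refine ⟨hc, ?_, exists_kurepa h', fun T _ hT hs => ?_⟩
  · apply le_antisymm
    · obtain ⟨w, hw⟩ := h.ch
      have h1 := Cardinal.mk_le_of_surjective hw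
      rw [Cardinal.mk_set, Cardinal.mk_nat, Cardinal.two_power_aleph0, hc] at h1
      exact h1
    · rw [← succ_aleph0]
      exact Order.succ_le_of_lt Cardinal.aleph0_lt_continuum
  · exact not_diamondPlus h' (IffDiamondPlus.result.1 ⟨T, inferInstance, hT, hs⟩)

end Pool.Agent.Results.MP_0f79e1_lc.NoStrongUnderCH
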